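import Pool.Agent.V11106.LB.Defs
import Pool.Agent.TH133.PW.Orb

/-!
# Products with surfaces with algebraic cohomology
-/

open CategoryTheory AlgebraicGeometry

universe u v

namespace Pool.Agent.V11106.LB

open Pool.Agent.H914 VarClass Obj WeilCohomology Pool.Agent.TH133.PW Module

variable {k : Type u} [Field k] {𝒱 : VarClass k} {ops : CycleOps 𝒱}
  {W : WeilCohomology.{u, v} ops} {X Y S T : 𝒱.Obj}

/-- Pull-backs are algebraic correspondences. -/
lemma map_mem (f : X ⟶ Y) : (W.map f).toLinearMap ∈ KOp W Y X 0 := by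
  have h1 : (W.map f).toLinearMap =
      W.corr (W.cl _ (ops.push (Obj.lift f (𝟙 X)) X.V.fundCycle)) := by
    apply LinearMap.ext
    intro a
    rw [W.cl_push, W.cl_fund, corr_apply, ← W.push_mul, one_mul, ← W.push_comp, ← W.map_comp]
    have e1 : Obj.lift f (𝟙 X) ≫ snd Y X = 𝟙 X := Obj.lift_snd _ _
    have e2 : Obj.lift f (𝟙 X) ≫ fst Y X = f := Obj.lift_fst _ _
    rw [e1, e2, W.push_id]
    rfl
  rw [h1]
  refine KOp.gen (p := Y.dim) (by ring) ?_
  exact ops.push_mem _ X.V.fundCycle_mem (by simp only [dim_prod]; ring)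

/-- Push-forwards are algebraic correspondences. -/
lemma push_mem' (f : X ⟶ Y) : W.push f ∈ KOp W X Y ((Y.dim : ℤ) - X.dim) := by
  have h1 : W.push f =
      W.corr (W.cl _ (ops.push (Obj.lift (𝟙 X) f) X.V.fundCycle)) := by
    apply LinearMap.ext
    intro a
    rw [W.cl_push, W.cl_fund, corr_apply, ← W.push_mul, one_mul, ← W.push_comp, ← W.map_comp]
    have e1 : Obj.lift (𝟙 X) f ≫ snd X Y = f := Obj.lift_snd _ _
    have e2 : Obj.lift (𝟙 X) f ≫ fst X Y = 𝟙 X := Obj.lift_fst _ _
    rw [e1, e2, W.map_id]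
  rw [h1]
  refine KOp.gen (p := Y.dim) (by ring) ?_
  exact ops.push_mem _ X.V.fundCycle_mem (by simp only [dim_prod]; ring)

/-- Products with classes of cycles are algebraic correspondences. -/
lemma mulLeft_mem {p : ℕ} {D : X.Cycles} (hD : X.IsCyc p D) :
    LinearMap.mulLeft W.K (W.cl X D) ∈ KOp W X X p := by
  have h1 : LinearMap.mulLeft W.K (W.cl X D) = W.corr (W.cl _ (ops.push (diag X) D)) := by
    apply LinearMap.ext
    intro a
    rw [W.cl_push, corr_diag, LinearMap.mulLeft_apply]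
  rw [h1]
  exact KOp.gen (p := X.dim + p) (by push_cast; ring)
    (ops.push_mem _ hD (by simp only [dim_prod]; omega))

/-- `x ↦ x × e`. -/
noncomputable def iota (W : WeilCohomology.{u, v} ops) (S : 𝒱.Obj) {T : 𝒱.Obj} (e : T.Cycles) :
    W.H S →ₗ[W.K] W.H (S.prod T) :=
  LinearMap.mulLeft W.K (W.cl _ (ops.pull (snd S T) e)) ∘ₗ (W.map (fst S T)).toLinearMap

/-- `z ↦ pr_* (z · (S × f))`. -/
noncomputable def pi (W : WeilCohomology.{u, v} ops) (S : 𝒱.Obj) {T : 𝒱.Obj} (f : T.Cycles) :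
    W.H (S.prod T) →ₗ[W.K] W.H S :=
  W.push (fst S T) ∘ₗ LinearMap.mulLeft W.K (W.cl _ (ops.pull (snd S T) f))

lemma iota_apply (e : T.Cycles) (x : W.H S) :
    iota W S e x = W.map (snd S T) (W.cl T e) * W.map (fst S T) x := by
  rw [iota, LinearMap.comp_apply, LinearMap.mulLeft_apply, W.cl_pull]
  rfl

lemma pi_apply (f : T.Cycles) (z : W.H (S.prod T)) :
    pi W S f z = W.push (fst S T) (W.map (snd S T) (W.cl T f) * z) := by
  rw [pi, LinearMap.comp_apply, LinearMap.mulLeft_apply, W.cl_pull]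

lemma iota_mem {p : ℕ} {e : T.Cycles} (he : T.IsCyc p e) : iota W S e ∈ KOp W S (S.prod T) p :=
  KOp.cast (KOp.comp (mulLeft_mem (ops.pull_mem _ he)) (map_mem _)) (by ring)

lemma pi_mem {q : ℕ} {f : T.Cycles} (hf : T.IsCyc q f) :
    pi W S f ∈ KOp W (S.prod T) S ((q : ℤ) - T.dim) :=
  KOp.cast (KOp.comp (push_mem' _) (mulLeft_mem (ops.pull_mem _ hf)))
    (by rw [dim_prod]; push_cast; ring)

lemma pi_iota {p q : ℕ} {e f : T.Cycles} (he : T.IsCyc p e) (hf : T.IsCyc q f) (x : W.H S) :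
    pi W S f (iota W S e x) = W.tr T (W.cl T e * W.cl T f) • x := by
  rw [pi_apply, iota_apply]
  apply W.tr_ext
  intro c
  have h1 := W.map_mem (snd S T) (W.cl_mem he)
  have h2 := W.map_mem (snd S T) (W.cl_mem hf)
  have key : W.map (snd S T) (W.cl T f) * (W.map (snd S T) (W.cl T e) * W.map (fst S T) x) *
      W.map (fst S T) c = W.map (fst S T) (x * c) * W.map (snd S T) (W.cl T e * W.cl T f) := by
    rw [W.even_comm h2, W.even_comm h1, mul_assoc, W.even_comm h2, mul_assoc, ← mul_assoc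
      (W.map (snd S T) (W.cl T e)), W.even_comm h1, mul_assoc (W.map (fst S T) c),
      ← mul_assoc (W.map (fst S T) x), map_mul, map_mul]
  rw [W.tr_push, key, W.tr_prod, smul_mul_assoc, map_smul, smul_eq_mul, mul_comm]

/-- A class on `S × T` is determined by its components. -/
lemma eq_zero_of_pi {F : Set (T.Cycles)} (hF : ∀ f ∈ F, ∃ q, T.IsCyc q f)
    (hs : Submodule.span W.K (W.cl T '' F) = ⊤) {z : W.H (S.prod T)}
    (hz : ∀ f ∈ F, pi W S f z = 0) : z = 0 := by
  apply W.nondeg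
  intro c
  refine W.kunneth_induction (p := fun c => W.tr (S.prod T) (z * c) = 0) ?_ ?_ c
  · intro a b ha hb
    rw [mul_add, map_add, ha, hb, add_zero]
  · intro i j a _ b hbj
    have hb : b ∈ Submodule.span W.K (W.cl T '' F) := hs ▸ Submodule.mem_top
    clear hbj
    induction hb using Submodule.span_induction with
    | mem b hb =>
      obtain ⟨f, hf, rfl⟩ := hb
      obtain ⟨q, hq⟩ := hF f hf
      have h2 := W.map_mem (snd S T) (W.cl_mem hq)
      have h3 := congrArg (fun y => W.tr S (y * a)) (hz f hf)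
      simp only [pi_apply, W.tr_push, zero_mul, map_zero] at h3
      rw [← W.even_comm h2, ← mul_assoc, ← W.even_comm h2]
      exact h3
    | zero => rw [map_zero, mul_zero, mul_zero, map_zero]
    | add b b' _ _ hb hb' => rw [map_add, mul_add, mul_add, map_add, hb, hb', add_zero]
    | smul t b _ hb => rw [map_smul, mul_smul_comm, mul_smul_comm, map_smul, hb, smul_zero]

end Pool.Agent.V11106.LB
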