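import Pool.Agent.TH133.PW.Defs

/-!
# The Lefschetz standard conjecture up to small kernels: definitions
-/

open CategoryTheory AlgebraicGeometry

universe u v

namespace Pool.Agent.V11106.LB

open Pool.Agent.H914 VarClass Obj WeilCohomology Pool.Agent.TH133.PW

section Alg

variable {K A : Type*} [Field K] [Ring A] [Algebra K A]

/-- The systems `x i` and `y i` are dual for `tr`: `tr (x i * y j)` is `1` for `i = j` and `0` for
`i ≠ j`. -/
def AreDual (tr : A →ₗ[K] K) {N : ℕ} (x y : Fin N → A) : Prop :=
  ∀ i j, tr (x i * y j) = if i = j then 1 else 0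

variable (K) in
/-- The algebra `A` is spanned by `1`, `o` and the `y i`. -/
def SpansAll {N : ℕ} (o : A) (y : Fin N → A) : Prop :=
  Submodule.span K ({1, o} ∪ Set.range y) = ⊤

/-- Some linear combination of the operators in `S` has a kernel of dimension at most `B` on the
subspace `U`. -/
def KernelAtMost (S : Set (A →ₗ[K] A)) (U : Submodule K A) (B : ℝ) : Prop :=
  ∃ φ ∈ Submodule.span K S, (Module.finrank K ↥(U ⊓ LinearMap.ker φ) : ℝ) ≤ B

/-- Some linear combination `φ` of the operators in `S` satisfies `ξ * φ(y) = y` for all `y` in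
`U`. -/
def InvertsOn (S : Set (A →ₗ[K] A)) (ξ : A) (U : Submodule K A) : Prop :=
  ∃ φ ∈ Submodule.span K S, ∀ y ∈ U, ξ * φ y = y

end Alg

variable {k : Type u} [Field k] {𝒱 : VarClass k} {ops : CycleOps 𝒱}

/-- The classes of the divisors `e i` and `f i` are dual systems: `tr (e i · f j)` is `1` for
`i = j` and `0` for `i ≠ j`. -/
def DualSystems (W : WeilCohomology.{u, v} ops) (T : 𝒱.Obj) {N : ℕ} (e f : Fin N → T.Cycles) :
    Prop :=
  AreDual (W.tr T) (fun i => W.cl T (e i)) (fun i => W.cl T (f i))

/-- The cohomology of `T` is spanned by `1`, the class of `o` and the classes of the `f i`. -/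
def SpanCohomology (W : WeilCohomology.{u, v} ops) (T : 𝒱.Obj) {N : ℕ} (f : Fin N → T.Cycles)
    (o : T.Cycles) : Prop :=
  SpansAll W.K (W.cl T o) (fun i => W.cl T (f i))

/-- `T` is a surface with algebraic cohomology and `N` independent divisor classes: there are dual
systems `e i` and `f i` (`i < N`) of divisors and a zero-cycle `o`, such that `H(T)` is spanned by
`1`, the class of `o` and the classes of the `f i`. (For instance the surface obtained from the
projective plane by `N - 1` successive blow-ups of rational points; then `f i = ± e i`.) -/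
def IsRationalSurface (W : WeilCohomology.{u, v} ops) (T : 𝒱.Obj) (N : ℕ) : Prop :=
  T.dim = 2 ∧ ∃ (e f : Fin N → T.Cycles) (o : T.Cycles),
    (∀ i, T.IsCyc 1 (e i)) ∧ (∀ i, T.IsCyc 1 (f i)) ∧ T.IsCyc 2 o ∧
    DualSystems W T e f ∧ SpanCohomology W T f o

/-- The class of varieties contains such a surface for every `N`. -/
def HasRationalSurfaces (W : WeilCohomology.{u, v} ops) : Prop :=
  ∀ N : ℕ, ∃ T : 𝒱.Obj, IsRationalSurface W T N

/-- Every variety of the class has a divisor for which the hard Lefschetz theorem holds. -/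
def HasLefschetzDivisors (W : WeilCohomology.{u, v} ops) : Prop :=
  ∀ X : 𝒱.Obj, ∃ D : X.Cycles, X.IsCyc 1 D ∧ HardLefschetz W X D

/-- The Lefschetz standard conjecture for all varieties `X` of the class: for all divisors `D` with
hard Lefschetz, the operator `Λ` is induced by one algebraic cycle with rational coefficients. -/
def ConjectureB (W : WeilCohomology.{u, v} ops) : Prop :=
  ∀ (X : 𝒱.Obj) (D : X.Cycles), X.IsCyc 1 D → HardLefschetz W X D → LefschetzB W X D

/-- Some combination `φ`, with coefficients in `K`, of algebraic cycles of codimension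
`dim X - c` on `X × X` induces a map from `H^(n + c)(X)` to `H^(n - c)(X)`, `n = dim X`, whose
kernel has dimension at most `B`. -/
def SmallKernel (W : WeilCohomology.{u, v} ops) (X : 𝒱.Obj) (c : ℕ) (B : ℝ) : Prop :=
  KernelAtMost (cycleOperators W X (X.dim - c)) (W.gr X (X.dim + c)) B

/-- On the varieties of dimension `n` there are algebraic maps `H^(n + c) → H^(n - c)` whose kernels
have bounded dimensions. -/
def BoundedKernels (W : WeilCohomology.{u, v} ops) (n c : ℕ) : Prop :=
  ∃ B : ℝ, ∀ X : 𝒱.Obj, X.dim = n → SmallKernel W X c B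

/-- On the varieties `X` of dimension `n` there are algebraic maps `H^(n + c)(X) → H^(n - c)(X)`
whose kernels have dimension `o(b)`, where `b` is the Betti number `b_(n + c)(X)`: for every
`ε > 0`, the dimension is at most `ε b` for all `X` of dimension `n` for which `b` is larger than
some bound. -/
def SublinearKernels (W : WeilCohomology.{u, v} ops) (n c : ℕ) : Prop :=
  ∀ ε : ℝ, 0 < ε → ∃ B : ℕ, ∀ X : 𝒱.Obj, X.dim = n → B ≤ W.betti X (n + c) →
    SmallKernel W X c (ε * W.betti X (n + c))

/-- One combination, with coefficients in `K`, of algebraic cycles of codimension `n - c` on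
`X × X` induces the inverse of `ξ ^ c : H^(n - c)(X) → H^(n + c)(X)`, where `n = dim X` and `ξ` is
the class of `D`. -/
def InverseInDegree (W : WeilCohomology.{u, v} ops) (X : 𝒱.Obj) (D : X.Cycles) (c : ℕ) : Prop :=
  InvertsOn (cycleOperators W X (X.dim - c)) (W.cl X D ^ c) (W.gr X (X.dim + c))

/-- For all `c ≤ n` the kernels are bounded in dimension `n`. -/
def AllBounded (W : WeilCohomology.{u, v} ops) : Prop := ∀ n c : ℕ, c ≤ n → BoundedKernels W n c

/-- For all `c ≤ n` the kernels are `o(b)` in dimension `n`. -/
def AllSublinear (W : WeilCohomology.{u, v} ops) : Prop :=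
  ∀ n c : ℕ, c ≤ n → SublinearKernels W n c

/-- For all varieties `X` of dimension `n` and all divisors with hard Lefschetz the inverse of
`ξ ^ c : H^(n - c)(X) → H^(n + c)(X)` is a combination of algebraic correspondences. -/
def InverseInDimension (W : WeilCohomology.{u, v} ops) (n c : ℕ) : Prop :=
  ∀ (X : 𝒱.Obj) (D : X.Cycles), X.dim = n → X.IsCyc 1 D → HardLefschetz W X D →
    InverseInDegree W X D c

end Pool.Agent.V11106.LB
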