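import Pool.Agent.V11106.LB.Base

/-!
# The Lefschetz standard conjecture up to small kernels
-/

open CategoryTheory AlgebraicGeometry

universe u v

namespace Pool.Agent.V11106.LB

open Pool.Agent.H914 VarClass Obj WeilCohomology Pool.Agent.TH133.PW Module

variable {k : Type u} [Field k] {𝒱 : VarClass k} {ops : CycleOps 𝒱}
  {W : WeilCohomology.{u, v} ops} {X Y S T : 𝒱.Obj}

/-- The classes on `S × T` given by `N` classes on `S`. -/
noncomputable def big (W : WeilCohomology.{u, v} ops) (S : 𝒱.Obj) {T : 𝒱.Obj} {N : ℕ}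
    (e : Fin N → T.Cycles) (V : Submodule W.K (W.H S)) :
    (Fin N → V) →ₗ[W.K] W.H (S.prod T) :=
  ∑ i, iota W S (e i) ∘ₗ V.subtype ∘ₗ LinearMap.proj i

lemma big_apply {N : ℕ} (e : Fin N → T.Cycles) (V : Submodule W.K (W.H S)) (x : Fin N → V) :
    big W S e V x = ∑ i, iota W S (e i) (x i : W.H S) := by
  rw [big, LinearMap.sum_apply]
  rfl

/-- The components of a class on `S × T`. -/
noncomputable def comps (W : WeilCohomology.{u, v} ops) (S : 𝒱.Obj) {T : 𝒱.Obj} {N : ℕ}
    (f : Fin N → T.Cycles) (o : T.Cycles) :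
    W.H (S.prod T) →ₗ[W.K] (Fin N → W.H S) × (W.H S × W.H S) :=
  (LinearMap.pi fun i => pi W S (f i)).prod ((pi W S T.V.fundCycle).prod (pi W S o))

/-- A surface with algebraic cohomology. -/
structure Rat (W : WeilCohomology.{u, v} ops) (T : 𝒱.Obj) {N : ℕ} (e f : Fin N → T.Cycles)
    (o : T.Cycles) : Prop where
  dim : T.dim = 2
  he : ∀ i, T.IsCyc 1 (e i)
  hf : ∀ i, T.IsCyc 1 (f i)
  ho : T.IsCyc 2 o
  dual : ∀ i j, W.tr T (W.cl T (e i) * W.cl T (f j)) = if i = j then 1 else 0
  span : Submodule.span W.K ({1, W.cl T o} ∪ Set.range fun i => W.cl T (f i)) = ⊤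

section rat

variable {N : ℕ} {e f : Fin N → T.Cycles} {o : T.Cycles} (hT : Rat W T e f o)
include hT

lemma Rat.pi_big (V : Submodule W.K (W.H S)) (x : Fin N → V) (j : Fin N) :
    pi W S (f j) (big W S e V x) = x j := by
  rw [big_apply, map_sum, Finset.sum_eq_single j]
  · rw [pi_iota (hT.he j) (hT.hf j), hT.dual, if_pos rfl, one_smul]
  · intro i _ hij
    rw [pi_iota (hT.he i) (hT.hf j), hT.dual, if_neg hij, zero_smul]
  · intro h
    exact absurd (Finset.mem_univ j) h

lemma Rat.big_inj (V : Submodule W.K (W.H S)) : Function.Injective (big W S e V) := by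
  intro x y hxy
  funext j
  apply Subtype.ext
  rw [← hT.pi_big V x j, hxy, hT.pi_big V y j]

lemma Rat.comps_inj : Function.Injective (comps W S f o) := by
  rw [injective_iff_map_eq_zero]
  intro z hz
  have h1 := congrArg Prod.fst hz
  have h2 := congrArg (fun p => p.2.1) hz
  have h3 := congrArg (fun p => p.2.2) hz
  refine eq_zero_of_pi (F := {T.V.fundCycle, o} ∪ Set.range f) ?_ ?_ ?_
  · rintro g ((rfl | rfl) | ⟨i, rfl⟩)
    · exact ⟨0, T.V.fundCycle_mem⟩
    · exact ⟨2, hT.ho⟩
    · exact ⟨1, hT.hf i⟩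
  · rw [← hT.span, Set.image_union, Set.image_pair, W.cl_fund, ← Set.range_comp]
    rfl
  · rintro g ((rfl | rfl) | ⟨i, rfl⟩)
    · exact h2
    · exact h3
    · exact congrFun h1 i

/-- The size of the cohomology of `S × T`. -/
lemma Rat.finrank_le : finrank W.K (W.H (S.prod T)) ≤ (N + 2) * finrank W.K (W.H S) := by
  have h1 := LinearMap.finrank_le_finrank_of_injective (hT.comps_inj (S := S))
  rw [Module.finrank_prod, Module.finrank_prod, Module.finrank_pi_fintype] at h1
  simp only [Finset.sum_const, Finset.card_univ, Fintype.card_fin, smul_eq_mul] at h1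
  linarith [h1, add_mul N 2 (finrank W.K (W.H S))]

/-- The images of the classes in `V` under an algebraic correspondence. -/
lemma Rat.finrank_map_le {d : ℤ} {V Z : Submodule W.K (W.H S)}
    (hVZ : ∀ ψ ∈ KOp W S S d, ∀ x ∈ V, ψ x ∈ Z)
    {φ : W.H (S.prod T) →ₗ[W.K] W.H (S.prod T)} (hφ : φ ∈ KOp W (S.prod T) (S.prod T) d) :
    finrank W.K (LinearMap.range (φ ∘ₗ big W S e V)) ≤
      N * finrank W.K Z + 2 * finrank W.K (W.H S) := by
  let P : Submodule W.K ((Fin N → W.H S) × (W.H S × W.H S)) :=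
    (Submodule.pi Set.univ fun _ => Z).prod ⊤
  have h1 : (LinearMap.range (φ ∘ₗ big W S e V)).map (comps W S f o) ≤ P := by
    rintro _ ⟨_, ⟨x, rfl⟩, rfl⟩
    refine ⟨?_, Submodule.mem_top⟩
    intro j _
    change pi W S (f j) (φ (big W S e V x)) ∈ Z
    rw [big_apply, map_sum, map_sum]
    apply Submodule.sum_mem
    intro i _
    exact hVZ _ (KOp.cast (KOp.comp (pi_mem (hT.hf j)) (KOp.comp hφ (iota_mem (hT.he i))))
      (by rw [hT.dim]; push_cast; ring)) _ (x i).2
  have h2 : finrank W.K ↥((LinearMap.range (φ ∘ₗ big W S e V)).map (comps W S f o)) =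
      finrank W.K (LinearMap.range (φ ∘ₗ big W S e V)) :=
    (Submodule.equivMapOfInjective _ hT.comps_inj _).finrank_eq.symm
  have h3 := Submodule.finrank_mono h1
  rw [h2] at h3
  refine h3.trans ?_
  have h4 : finrank W.K P ≤ finrank W.K ((Fin N → Z) × (W.H S × W.H S)) := by
    let g : P →ₗ[W.K] (Fin N → Z) × (W.H S × W.H S) :=
      { toFun := fun p => (fun i => ⟨p.1.1 i, p.2.1 i (Set.mem_univ i)⟩, p.1.2)
        map_add' := fun _ _ => rfl
        map_smul' := fun _ _ => rfl }
    apply LinearMap.finrank_le_finrank_of_injective (f := g)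
    intro p q hpq
    apply Subtype.ext
    apply Prod.ext
    · funext i
      exact congrArg (fun r => ((r.1 i : Z) : W.H S)) hpq
    · exact congrArg (fun r => r.2) hpq
  rw [Module.finrank_prod, Module.finrank_prod, Module.finrank_pi_fintype] at h4
  simp only [Finset.sum_const, Finset.card_univ, Fintype.card_fin, smul_eq_mul] at h4
  linarith [h4]

/-- The kernel of an algebraic correspondence on the classes in `V`. -/
lemma Rat.kernel_ge {d : ℤ} {V Z : Submodule W.K (W.H S)}
    (hVZ : ∀ ψ ∈ KOp W S S d, ∀ x ∈ V, ψ x ∈ Z) (hlt : finrank W.K Z < finrank W.K V)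
    {φ : W.H (S.prod T) →ₗ[W.K] W.H (S.prod T)} (hφ : φ ∈ KOp W (S.prod T) (S.prod T) d)
    {m : ℕ} (hm : LinearMap.range (big W S e V) ≤ W.gr (S.prod T) m) :
    N ≤ finrank W.K ↥(W.gr (S.prod T) m ⊓ LinearMap.ker φ) + 2 * finrank W.K (W.H S) := by
  have h1 := LinearMap.finrank_range_add_finrank_ker (φ ∘ₗ big W S e V)
  rw [Module.finrank_pi_fintype] at h1
  simp only [Finset.sum_const, Finset.card_univ, Fintype.card_fin, smul_eq_mul] at h1
  have h2 := hT.finrank_map_le hVZ hφ
  have h3 : finrank W.K (LinearMap.ker (φ ∘ₗ big W S e V)) ≤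
      finrank W.K ↥(W.gr (S.prod T) m ⊓ LinearMap.ker φ) := by
    have h4 : (LinearMap.ker (φ ∘ₗ big W S e V)).map (big W S e V) ≤
        W.gr (S.prod T) m ⊓ LinearMap.ker φ := by
      rintro _ ⟨x, hx, rfl⟩
      exact ⟨hm ⟨x, rfl⟩, hx⟩
    have h5 := Submodule.finrank_mono h4
    rwa [← (Submodule.equivMapOfInjective _ (hT.big_inj V) _).finrank_eq] at h5
  have h6 : N * finrank W.K Z + N ≤ N * finrank W.K V := by
    rw [← Nat.mul_succ]
    exact Nat.mul_le_mul_left N hlt
  omega

end rat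

end Pool.Agent.V11106.LB
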